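import Pool.Agent.Helper77.DI.Elt

/-!
Delta-schemes supported on the Segre varieties (MP_b07a0a), definitions for the core.

A table has rows `R`, columns `I` and entries in `E`. A function on tables with `K` rows is an
element of the `K`-th tensor power of `⊗_{i : I} ℂ^E`.
-/

namespace Pool.Agent.Helper77.DS

open MvPolynomial

noncomputable section

section tables

variable {R I I' E E' : Type}

/-- Exchange the entries of column `i` in the rows `P` and `Q`. -/
def sw [DecidableEq R] [DecidableEq I] (P Q : R) (i : I) (t : R → I → E) : R → I → E :=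
  fun r j => if j = i then t (Equiv.swap P Q r) j else t r j

/-- All `k`-fold differences of `g`, with respect to exchanges in one column in `k` pairwise
disjoint pairs of rows outside `U`, vanish. -/
def Van [DecidableEq R] [DecidableEq I] : ℕ → Finset R → ((R → I → E) → ℂ) → Prop
  | 0, _, g => ∀ t, g t = 0
  | k + 1, U, g => ∀ P Q : R, P ∉ U → Q ∉ U → P ≠ Q → ∀ i : I,
      Van k (insert P (insert Q U)) (fun t => g t - g (sw P Q i t))

/-- The matrices `A i` act on the columns. -/
def tact [Fintype R] [DecidableEq R] [Fintype I] [DecidableEq I] [Fintype E]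
    (A : I → E' → E → ℂ) (f : (R → I → E) → ℂ) : (R → I → E') → ℂ :=
  fun t' => ∑ t : R → I → E, (∏ r, ∏ i, A i (t' r i) (t r i)) * f t

open Classical in
/-- Column `j` of the new table is column `s j` of the old one (copies of columns). -/
def colmap [Fintype R] [Fintype I] [Fintype E] (s : I' → I) (f : (R → I → E) → ℂ) :
    (R → I' → E) → ℂ :=
  fun t' => ∑ t : R → I → E, if (fun r j => t r (s j)) = t' then f t else 0

open Classical in
/-- Add the row `w` at the end. -/
def addRow {K : ℕ} (w : I → E) (f : (Fin K → I → E) → ℂ) : (Fin (K + 1) → I → E) → ℂ :=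
  fun t => if t (Fin.last K) = w then f (fun r => t r.castSucc) else 0

/-- Each letter `c ≠ 0` occurs exactly once in each column. -/
def Spec (D : ℕ) [Fintype R] (t : R → I → Fin (D + 1)) : Prop :=
  ∀ i, ∀ c : Fin (D + 1), c ≠ 0 → (Finset.univ.filter fun r => t r i = c).card = 1

/-- `g` annihilates `S`. -/
def Ann {T : Type} [Fintype T] (S : Submodule ℂ (T → ℂ)) (g : T → ℂ) : Prop :=
  ∀ f ∈ S, ∑ t, f t * g t = 0

end tables

/-- Families of spaces of functions on tables with `p` marked rows and `q` other rows, `n + 1`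
columns and entries in `Fin m`, as they come from graded `Sym(W)`-submodules of
`W^{⊗ p} ⊗ Sym(W)`, `W = (ℂ^m)^{⊗ (n + 1)}`. -/
structure CMod (p M : ℕ) where
  sub : ∀ n m q : ℕ, Submodule ℂ ((Fin (p + q) → Fin (n + 1) → Fin m) → ℂ)
  lin : ∀ (n m m' q : ℕ) (A : Fin (n + 1) → Fin m' → Fin m → ℂ)
    (f : (Fin (p + q) → Fin (n + 1) → Fin m) → ℂ), f ∈ sub n m q → tact A f ∈ sub n m' q
  col : ∀ (n n' m q : ℕ) (s : Fin (n' + 1) → Fin (n + 1)), Function.Surjective s →
    ∀ f : (Fin (p + q) → Fin (n + 1) → Fin m) → ℂ, f ∈ sub n m q → colmap s f ∈ sub n' m q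
  row : ∀ (n m q : ℕ) (w : Fin (n + 1) → Fin m)
    (f : (Fin (p + q) → Fin (n + 1) → Fin m) → ℂ), f ∈ sub n m q → addRow w f ∈ sub n m (q + 1)
  van : ∀ (n m q : ℕ) (g : (Fin (p + q) → Fin (n + 1) → Fin m) → ℂ),
    Ann (sub n m q) g → Van M ∅ g
  sym : ∀ (n m q : ℕ) (g : (Fin (p + q) → Fin (n + 1) → Fin m) → ℂ), Ann (sub n m q) g →
    ∀ σ : Equiv.Perm (Fin (p + q)), (∀ r : Fin p, σ (Fin.castAdd q r) = Fin.castAdd q r) →
      ∀ t, g (fun r => t (σ r)) = g t

/-! ## Polynomials -/

/-- The ideal of the Segre variety, generated by the differences of products of two variables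
that arise by an exchange in one coordinate. -/
def segI (I E : Type) [DecidableEq I] : Ideal (MvPolynomial (I → E) ℂ) :=
  Ideal.span {f | ∃ (u v : I → E) (i : I),
    f = X u * X v - X (Function.update u i (v i)) * X (Function.update v i (u i))}

/-- The element of `W^{⊗ p} ⊗ Sym^q(W)` given by a function on tables. -/
def pol {p q : ℕ} {Ω : Type} [Fintype Ω] (f : (Fin (p + q) → Ω) → ℂ) :
    (Fin p → Ω) → MvPolynomial Ω ℂ :=
  fun s => ∑ u : Fin q → Ω, C (f (Fin.append s u)) * ∏ r, X (u r)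

section

variable {p : ℕ} {I I' E E' : Type}

/-- The matrices `A i` act on `W^{⊗ p} ⊗ Sym(W)`. -/
def pact [Fintype I] [DecidableEq I] [Fintype E] (A : I → E' → E → ℂ)
    (c : (Fin p → I → E) → MvPolynomial (I → E) ℂ) :
    (Fin p → I → E') → MvPolynomial (I → E') ℂ :=
  fun s' => ∑ s : Fin p → I → E, C (∏ r, ∏ i, A i (s' r i) (s r i)) *
    DI.lmap (V := fun _ => E) (V' := fun _ => E') A (c s)

open Classical in
/-- Copies of columns for elements of `W^{⊗ p} ⊗ Sym(W)`. -/
def pcol [Fintype I] [Fintype E] (s : I' → I)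
    (c : (Fin p → I → E) → MvPolynomial (I → E) ℂ) :
    (Fin p → I' → E) → MvPolynomial (I' → E) ℂ :=
  fun t' => ∑ t : Fin p → I → E,
    if (fun r j => t r (s j)) = t' then rename (fun α j => α (s j)) (c t) else 0

end

/-- Families of submodules of `W^{⊗ p} ⊗ Sym(W)` that contain `W^{⊗ p} ⊗ (segI)^M`. -/
structure PMod (p M : ℕ) where
  S : ∀ n m : ℕ, Submodule ℂ ((Fin p → Fin (n + 1) → Fin m) →
    MvPolynomial (Fin (n + 1) → Fin m) ℂ)
  mul : ∀ (n m : ℕ) (c : (Fin p → Fin (n + 1) → Fin m) → MvPolynomial (Fin (n + 1) → Fin m) ℂ),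
    c ∈ S n m → ∀ α, (fun s => X α * c s) ∈ S n m
  lin : ∀ (n m m' : ℕ) (A : Fin (n + 1) → Fin m' → Fin m → ℂ)
    (c : (Fin p → Fin (n + 1) → Fin m) → MvPolynomial (Fin (n + 1) → Fin m) ℂ),
    c ∈ S n m → pact A c ∈ S n m'
  col : ∀ (n n' m : ℕ) (s : Fin (n' + 1) → Fin (n + 1)), Function.Surjective s →
    ∀ c : (Fin p → Fin (n + 1) → Fin m) → MvPolynomial (Fin (n + 1) → Fin m) ℂ,
    c ∈ S n m → pcol s c ∈ S n' m
  base : ∀ (n m : ℕ) (c : (Fin p → Fin (n + 1) → Fin m) →
    MvPolynomial (Fin (n + 1) → Fin m) ℂ),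
    (∀ s, c s ∈ segI (Fin (n + 1)) (Fin m) ^ M) → c ∈ S n m

end

end Pool.Agent.Helper77.DS
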