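import Pool.Agent.Helper77.DS.Col

/-!
Delta-schemes supported on the Segre varieties (MP_b07a0a): annihilators and orthogonal
complements of spaces of functions on a finite set.
-/

namespace Pool.Agent.Helper77.DS

noncomputable section

section

variable {T : Type} [Fintype T]

theorem mem_of_ann (S : Submodule ℂ (T → ℂ)) (f : T → ℂ)
    (h : ∀ g, Ann S g → ∑ t, f t * g t = 0) : f ∈ S := by
  classical
  by_contra hf
  obtain ⟨φ, hφ, hφS⟩ := Submodule.exists_dual_map_eq_bot_of_notMem hf inferInstance
  have hz : ∀ g ∈ S, φ g = 0 := by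
    intro g hg
    have : φ g ∈ S.map φ := Submodule.mem_map_of_mem hg
    rw [hφS] at this
    simpa using this
  have hsum : ∀ g : T → ℂ, φ g = ∑ t, g t * φ (Pi.single t 1) := by
    intro g
    conv_lhs => rw [← Finset.univ_sum_single g]
    rw [map_sum]
    refine Finset.sum_congr rfl fun t _ => ?_
    have : (Pi.single t (g t) : T → ℂ) = g t • (Pi.single t (1 : ℂ) : T → ℂ) := by
      ext x
      simp [Pi.single_apply]
    rw [this, map_smul, smul_eq_mul]
  apply hφ
  rw [hsum f]
  apply h
  intro g hg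
  rw [← hsum g]
  exact hz g hg

/-- The Hermitian orthogonal complement. -/
def orth (S : Submodule ℂ (T → ℂ)) : Submodule ℂ (T → ℂ) where
  carrier := {f | ∀ g ∈ S, ∑ t, g t * star (f t) = 0}
  zero_mem' := by intro g _; simp
  add_mem' := by
    intro f f' hf hf' g hg
    have := congrArg₂ (· + ·) (hf g hg) (hf' g hg)
    simp only [add_zero] at this
    rw [← this, ← Finset.sum_add_distrib]
    refine Finset.sum_congr rfl fun t _ => ?_
    simp only [Pi.add_apply, star_add]
    ring
  smul_mem' := by
    intro a f hf g hg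
    have := congrArg (fun x => star a * x) (hf g hg)
    simp only [mul_zero] at this
    rw [← this, Finset.mul_sum]
    refine Finset.sum_congr rfl fun t _ => ?_
    simp only [Pi.smul_apply, smul_eq_mul, star_mul']
    ring

theorem mem_orth {S : Submodule ℂ (T → ℂ)} {f : T → ℂ} :
    f ∈ orth S ↔ ∀ g ∈ S, ∑ t, g t * star (f t) = 0 := Iff.rfl

theorem eq_zero_of_mem_orth {S : Submodule ℂ (T → ℂ)} {f : T → ℂ} (hf : f ∈ S)
    (ho : f ∈ orth S) : f = 0 := by
  have h := ho f hf
  have h2 : ∑ t, ((‖f t‖ ^ 2 : ℝ) : ℂ) = 0 := by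
    rw [← h]
    refine Finset.sum_congr rfl fun t _ => ?_
    have := Complex.mul_conj (f t)
    rw [Complex.normSq_eq_norm_sq] at this
    exact this.symm
  rw [← Complex.ofReal_sum, Complex.ofReal_eq_zero] at h2
  rw [Finset.sum_eq_zero_iff_of_nonneg (fun t _ => by positivity)] at h2
  ext t
  have := h2 t (Finset.mem_univ t)
  simpa using this

theorem inf_orth_ne_bot {S S' : Submodule ℂ (T → ℂ)} (h : S ≤ S') (hne : ¬ S' ≤ S) :
    S' ⊓ orth S ≠ ⊥ := by
  intro hbot
  apply hne
  intro f hf
  let e := (WithLp.linearEquiv 2 ℂ (T → ℂ))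
  let K : Submodule ℂ (EuclideanSpace ℂ T) := S.comap e.toLinearMap
  have hsplit := K.exists_add_mem_mem_orthogonal (e.symm f)
  obtain ⟨y, hy, z, hz, hyz⟩ := hsplit
  have hyS : e y ∈ S := hy
  have hf2 : f = e y + e z := by
    rw [← map_add, ← hyz, LinearEquiv.apply_symm_apply]
  have hzS' : e z ∈ S' := by
    have : e z = f - e y := by rw [hf2]; abel
    rw [this]
    exact S'.sub_mem hf (h hyS)
  have hzo : e z ∈ orth S := by
    intro g hg
    have h1 : e.symm g ∈ K := by
      change e (e.symm g) ∈ S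
      rwa [LinearEquiv.apply_symm_apply]
    have h2 := (Submodule.mem_orthogonal' K z).1 hz _ h1
    rw [PiLp.inner_apply] at h2
    rw [← h2]
    refine Finset.sum_congr rfl fun t _ => ?_
    simp only [RCLike.inner_apply]
    rfl
  have hz0 : e z = 0 := by
    have : e z ∈ S' ⊓ orth S := ⟨hzS', hzo⟩
    rw [hbot] at this
    simpa using this
  rw [hf2, hz0, add_zero]
  exact hyS

theorem ann_star {S : Submodule ℂ (T → ℂ)} {f : T → ℂ} (hf : f ∈ orth S) :
    Ann S (fun t => star (f t)) := hf

end

theorem van_star {R I E : Type} [DecidableEq R] [DecidableEq I] (k : ℕ) :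
    ∀ (U : Finset R) (g : (R → I → E) → ℂ), Van k U (fun t => star (g t)) → Van k U g := by
  induction k with
  | zero =>
    intro U g h t
    have := h t
    exact star_eq_zero.mp this
  | succ k ih =>
    intro U g h P Q hP hQ hPQ i
    apply ih
    have := h P Q hP hQ hPQ i
    simpa only [star_sub] using this

theorem orth_tact {R I E E' : Type} [Fintype R] [DecidableEq R] [Fintype I] [DecidableEq I]
    [Fintype E] [Fintype E'] (A : I → E' → E → ℂ) (S : Submodule ℂ ((R → I → E) → ℂ))
    (S' : Submodule ℂ ((R → I → E') → ℂ))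
    (h : ∀ B : I → E → E' → ℂ, ∀ g ∈ S', tact B g ∈ S) (f : (R → I → E) → ℂ)
    (hf : f ∈ orth S) : tact A f ∈ orth S' := by
  intro g hg
  have h1 := hf _ (h (fun i x y => star (A i y x)) g hg)
  rw [← h1]
  simp only [tact, star_sum, star_mul', star_prod, Finset.mul_sum, Finset.sum_mul]
  rw [Finset.sum_comm]
  refine Finset.sum_congr rfl fun t _ => Finset.sum_congr rfl fun t' _ => ?_
  ring

end

end Pool.Agent.Helper77.DS
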