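import Pool.Agent.Helper77.DS.St.A
import Pool.Agent.Helper77.DS.Orth

/-!
Delta-schemes supported on the Segre varieties (MP_b07a0a): ascending chains of `CMod`s.
-/

namespace Pool.Agent.Helper77.DS

noncomputable section

section ext

variable {n K1 D : ℕ}

/-- The table with first rows given by the columns `w i`, and further rows zero. -/
def ext (K : ℕ) (w : Fin (n + 1) → Fin K1 → Fin (D + 1)) : Fin K → Fin (n + 1) → Fin (D + 1) :=
  fun r i => if h : (r : ℕ) < K1 then w i ⟨r, h⟩ else 0

open Classical in
/-- Functions of words as functions of tables. -/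
def extF (K : ℕ) : ((Fin (n + 1) → Fin K1 → Fin (D + 1)) → ℂ) →ₗ[ℂ]
    ((Fin K → Fin (n + 1) → Fin (D + 1)) → ℂ) where
  toFun c t := ∑ w, if ext K w = t then c w else 0
  map_add' c c' := by
    ext t
    simp only [Pi.add_apply, ← Finset.sum_add_distrib]
    refine Finset.sum_congr rfl fun w _ => ?_
    split_ifs <;> simp
  map_smul' a c := by
    ext t
    simp only [Pi.smul_apply, smul_eq_mul, RingHom.id_apply, Finset.mul_sum]
    refine Finset.sum_congr rfl fun w _ => ?_
    split_ifs <;> simp

theorem extF_apply (K : ℕ) (c : (Fin (n + 1) → Fin K1 → Fin (D + 1)) → ℂ)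
    (t : Fin K → Fin (n + 1) → Fin (D + 1)) [DecidableEq (Fin K → Fin (n + 1) → Fin (D + 1))] :
    extF K c t = ∑ w, if ext K w = t then c w else 0 := by
  simp only [extF, LinearMap.coe_mk, AddHom.coe_mk]
  refine Finset.sum_congr rfl fun w _ => ?_
  congr

theorem ext_injective {K : ℕ} (hK : K1 ≤ K) :
    Function.Injective (ext K : (Fin (n + 1) → Fin K1 → Fin (D + 1)) → _) := by
  intro w w' h
  ext i r
  have h1 := congrFun (congrFun h ⟨r, lt_of_lt_of_le r.2 hK⟩) i
  simp only [ext, r.2, dif_pos] at h1
  rw [h1]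

theorem sum_ite_comp {A B : Type} {_ : Fintype A} {_ : Fintype B} (φ : A → B) (P : B → Prop)
    {_ : DecidablePred P} {_ : ∀ a b, Decidable (φ a = b)} (c : A → ℂ) :
    ∑ b, (if P b then ∑ a, (if φ a = b then c a else 0) else 0) =
      ∑ a, if P (φ a) then c a else 0 := by
  classical
  have : ∀ b, (if P b then ∑ a, (if φ a = b then c a else 0) else 0) =
      ∑ a, if φ a = b then (if P b then c a else 0) else 0 := by
    intro b
    by_cases h : P b
    · simp only [if_pos h]
    · simp only [if_neg h, ite_self, Finset.sum_const_zero]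
  simp only [this]
  rw [Finset.sum_comm]
  refine Finset.sum_congr rfl fun a _ => ?_
  rw [Finset.sum_eq_single (φ a)]
  · rw [if_pos rfl]
  · intro b _ hb
    rw [if_neg (Ne.symm hb)]
  · intro h
    exact absurd (Finset.mem_univ _) h

theorem colmap_extF {n' : ℕ} (K : ℕ) (s : Fin (n' + 1) → Fin (n + 1))
    (c : (Fin (n + 1) → Fin K1 → Fin (D + 1)) → ℂ) :
    colmap s (extF K c) = extF K (wmap s c) := by
  classical
  ext t'
  have h1 : colmap s (extF K c) t' =
      ∑ w, if ext K (fun j => w (s j)) = t' then c w else 0 := by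
    simp only [colmap, extF_apply]
    exact sum_ite_comp (fun w : Fin (n + 1) → Fin K1 → Fin (D + 1) => ext K w)
      (fun t => (fun r j => t r (s j)) = t') c
  have h2 : extF K (wmap s c) t' = ∑ w, if ext K (fun j => w (s j)) = t' then c w else 0 := by
    simp only [extF_apply, wmap]
    refine (sum_ite_comp (fun (w : Fin (n + 1) → Fin K1 → Fin (D + 1)) i => w (s i))
      (fun w' => ext K w' = t') c).trans ?_
    exact Finset.sum_congr (by ext x; simp) fun w _ => rfl
  rw [h1, h2]

theorem addRow_extF (K : ℕ) (hK : K1 ≤ K) (c : (Fin (n + 1) → Fin K1 → Fin (D + 1)) → ℂ) :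
    addRow (K := K) (fun _ => 0) (extF K c) = extF (K + 1) c := by
  classical
  ext t
  simp only [addRow, extF_apply]
  by_cases h : t (Fin.last K) = fun _ => 0
  · rw [if_pos h]
    refine Finset.sum_congr rfl fun w _ => ?_
    have : ext K w = (fun r => t r.castSucc) ↔ ext (K + 1) w = t := by
      constructor
      · intro h1
        funext r
        refine Fin.lastCases ?_ (fun r => ?_) r
        · rw [h]
          funext i
          simp only [ext, Fin.val_last]
          rw [dif_neg (by omega)]
        · rw [← congrFun h1 r]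
          rfl
      · intro h1
        subst h1
        rfl
    simp only [this]
  · rw [if_neg h]
    symm
    refine Finset.sum_eq_zero fun w _ => ?_
    rw [if_neg]
    intro h1
    apply h
    rw [← h1]
    funext i
    simp only [ext, Fin.val_last]
    rw [dif_neg (by omega)]

theorem extF_ext {K : ℕ} (hK : K1 ≤ K) (c : (Fin (n + 1) → Fin K1 → Fin (D + 1)) → ℂ)
    (w : Fin (n + 1) → Fin K1 → Fin (D + 1)) : extF K c (ext K w) = c w := by
  classical
  rw [extF_apply]
  simp only [(ext_injective hK).eq_iff]
  simp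

/-- The basis functions. -/
theorem extF_single {K : ℕ} (w : Fin (n + 1) → Fin K1 → Fin (D + 1)) [DecidableEq
    (Fin (n + 1) → Fin K1 → Fin (D + 1))] [DecidableEq (Fin K → Fin (n + 1) → Fin (D + 1))]
    (t : Fin K → Fin (n + 1) → Fin (D + 1)) :
    extF K (Pi.single w 1) t = if ext K w = t then 1 else 0 := by
  rw [extF_apply]
  rw [Finset.sum_eq_single w]
  · simp
  · intro w' _ hw'
    simp [hw']
  · simp

end ext

section chain

variable {p M : ℕ}

theorem CMod.le_of_le (c : ℕ → CMod p M)
    (hc : ∀ k n m q, (c k).sub n m q ≤ (c (k + 1)).sub n m q) {k k' : ℕ} (h : k ≤ k')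
    (n m q : ℕ) : (c k).sub n m q ≤ (c k').sub n m q := by
  induction h with
  | refl => exact le_rfl
  | step _ ih => exact ih.trans (hc _ _ _ _)

/-- The chain of word functions. -/
theorem CMod.words (c : ℕ → CMod p M)
    (hc : ∀ k n m q, (c k).sub n m q ≤ (c (k + 1)).sub n m q) (D K1 q0 : ℕ) (hK : K1 ≤ p + q0) :
    ∃ N, ∀ k ≥ N, ∀ (n q : ℕ) (e : (Fin (n + 1) → Fin K1 → Fin (D + 1)) → ℂ),
      extF (p + (q0 + q)) e ∈ (c k).sub n (D + 1) (q0 + q) →
        extF (p + (q0 + q)) e ∈ (c N).sub n (D + 1) (q0 + q) := by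
  obtain ⟨N, hN⟩ := words_acc (S := Fin K1 → Fin (D + 1))
    (fun k n q => ((c k).sub n (D + 1) (q0 + q)).comap (extF (p + (q0 + q))))
    (by
      intro k n q
      exact Submodule.comap_mono (hc _ _ _ _))
    (by
      intro k n q e he
      rw [Submodule.mem_comap] at he ⊢
      have h1 := (c k).row _ _ _ (fun _ => 0) _ he
      rw [addRow_extF _ (by omega)] at h1
      exact h1)
    (by
      intro k n n' q s hs e he
      rw [Submodule.mem_comap] at he ⊢
      rw [← colmap_extF]
      exact (c k).col _ _ _ _ s hs _ he)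
  refine ⟨N, fun k hk n q e he => ?_⟩
  have := hN k hk n q
  have h2 : e ∈ ((c k).sub n (D + 1) (q0 + q)).comap (extF (p + (q0 + q))) := he
  rw [this] at h2
  exact h2

/-- Special functions in the difference of two steps. -/
theorem CMod.special {c c' : CMod p M} (hcc : ∀ n m q, c.sub n m q ≤ c'.sub n m q) (n q D : ℕ)
    (hR : (K0 D ≤ p + q ∧ M = D + 1) ∨ p + q = D) (m : ℕ) (hne : ¬ c'.sub n m q ≤ c.sub n m q) :
    ∃ f ∈ c'.sub n (D + 1) q, f ∈ orth (c.sub n (D + 1) q) ∧ f ≠ 0 ∧
      ∀ t, f t ≠ 0 → Spec D t := by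
  obtain ⟨f, hf, hf0, hsp⟩ := special_exists (R := Fin (p + q)) (I := Fin (n + 1)) D
    (fun m => c'.sub n m q ⊓ orth (c.sub n m q))
    (by
      intro m m' A f hf
      exact ⟨c'.lin _ _ _ _ A f hf.1,
        orth_tact A _ _ (fun B g hg => c.lin _ _ _ _ B g hg) f hf.2⟩)
    (by
      rcases hR with ⟨h1, h2⟩ | h1
      · left
        refine ⟨by simpa using h1, fun m f hf => ?_⟩
        have := c.van _ _ _ _ (ann_star hf.2)
        rw [h2] at this
        exact van_star _ _ _ this
      · right
        simpa using h1)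
    m (inf_orth_ne_bot (hcc _ _ _) hne)
  exact ⟨f, hf.1, hf.2, hf0, hsp⟩

/-- A permutation of the unmarked rows that moves the nonzero ones to the beginning. -/
theorem exists_perm (p q b : ℕ) (hb : b ≤ q) (B : Finset (Fin q)) (hB : B.card ≤ b) :
    ∃ σ : Equiv.Perm (Fin (p + q)), (∀ r : Fin p, σ (Fin.castAdd q r) = Fin.castAdd q r) ∧
      ∀ j : Fin q, b ≤ (j : ℕ) → ∃ j' ∉ B, σ (Fin.natAdd p j) = Fin.natAdd p j' := by
  classical
  -- an injection of `B` into the first `b` elements
  let e0 : B ≃ Fin B.card := B.equivFin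
  let f0 : B → Fin q := fun x => ⟨e0 x, lt_of_lt_of_le (lt_of_lt_of_le (e0 x).2 hB) hb⟩
  have hf0 : Function.Injective f0 := by
    intro x y h
    have : (f0 x : ℕ) = f0 y := congrArg Fin.val h
    exact e0.injective (Fin.ext this)
  let e1 : {x // x ∈ B} ≃ {x // x ∈ Set.range f0} := Equiv.ofInjective f0 hf0
  let τ : Equiv.Perm (Fin q) := e1.extendSubtype
  have hτ : ∀ x ∈ B, (τ x : ℕ) < b := by
    intro x hx
    have h1 : τ x = e1 ⟨x, hx⟩ := e1.extendSubtype_apply_of_mem x hx
    have h2 : ((e1 ⟨x, hx⟩ : {x // x ∈ Set.range f0}) : Fin q) = f0 ⟨x, hx⟩ := rfl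
    rw [h1, h2]
    exact lt_of_lt_of_le (e0 ⟨x, hx⟩).2 hB
  refine ⟨(finSumFinEquiv.symm.trans (Equiv.sumCongr (Equiv.refl _) τ.symm)).trans
    finSumFinEquiv, fun r => ?_, fun j hj => ?_⟩
  · simp
  · refine ⟨τ.symm j, fun h => ?_, by simp⟩
    have := hτ _ h
    rw [Equiv.apply_symm_apply] at this
    omega

/-- Functions supported on special tables are, modulo the submodule, functions of words. -/
theorem CMod.reduce {D : ℕ} (c : CMod p (D + 1)) (n q : ℕ) (hq : D + 2 * (D + 1) ≤ q)
    (f : (Fin (p + q) → Fin (n + 1) → Fin (D + 1)) → ℂ) (hf : ∀ t, f t ≠ 0 → Spec D t) :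
    ∃ e : (Fin (n + 1) → Fin (p + (D + 2 * (D + 1))) → Fin (D + 1)) → ℂ,
      f - extF (p + q) e ∈ c.sub n (D + 1) q := by
  classical
  have key : f ∈ c.sub n (D + 1) q ⊔ LinearMap.range
      (extF (n := n) (K1 := p + (D + 2 * (D + 1))) (D := D) (p + q)) := by
    apply mem_of_ann
    intro g hg
    have hA : Ann (c.sub n (D + 1) q) g := fun f' hf' => hg f' (Submodule.mem_sup_left hf')
    have hvan := c.van _ _ _ _ hA
    have hsym := c.sym _ _ _ _ hA
    have hext : ∀ w : Fin (n + 1) → Fin (p + (D + 2 * (D + 1))) → Fin (D + 1),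
        g (ext (p + q) w) = 0 := by
      intro w
      have := hg (extF (p + q) (Pi.single w 1))
        (Submodule.mem_sup_right (LinearMap.mem_range_self _ _))
      simp only [extF_single] at this
      simpa using this
    have hspec : ∀ t, Spec D t → g t = 0 := by
      refine spec_vanish D (D + 1) ?_ g hvan ?_
      · simp only [Fintype.card_fin]
        omega
      · intro t _ hcard
        obtain ⟨σ, hσ1, hσ2⟩ := exists_perm p q (D + 2 * (D + 1)) hq
          (Finset.univ.filter fun j => ∃ i, t (Fin.natAdd p j) i ≠ 0) (by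
            refine le_trans ?_ hcard
            refine Finset.card_le_card_of_injOn (Fin.natAdd p) ?_ ?_
            · intro j hj
              simp only [Finset.coe_filter, Finset.mem_univ, true_and, Set.mem_ofPred_eq] at hj ⊢
              exact hj
            · intro j _ j' _ h
              exact Fin.natAdd_injective _ _ h)
        rw [← hsym σ hσ1 t]
        have : (fun r => t (σ r)) = ext (p + q)
            (fun i (r : Fin (p + (D + 2 * (D + 1)))) => t (σ ⟨r, by omega⟩) i) := by
          funext r i
          simp only [ext]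
          split_ifs with h
          · rfl
          · refine Fin.addCases (fun r h => ?_) (fun j h => ?_) r h
            · exfalso
              have := r.2
              simp only [Fin.val_castAdd] at h
              omega
            · obtain ⟨j', hj', hj⟩ := hσ2 j (by
                simp only [Fin.val_natAdd] at h
                omega)
              rw [hj]
              by_contra hne
              apply hj'
              simp only [Finset.mem_filter, Finset.mem_univ, true_and]
              exact ⟨i, hne⟩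
        rw [this]
        exact hext _
    refine Finset.sum_eq_zero fun t _ => ?_
    by_cases h : f t = 0
    · rw [h, zero_mul]
    · rw [hspec t (hf t h), mul_zero]
  obtain ⟨y, hy, z, ⟨e, rfl⟩, hyz⟩ := Submodule.mem_sup.1 key
  refine ⟨e, ?_⟩
  rw [← hyz]
  simpa using hy

/-- DS-9 -/
theorem CMod.acc' {p M : ℕ} (c : ℕ → CMod p M)
    (hc : ∀ k n m q, (c k).sub n m q ≤ (c (k + 1)).sub n m q) :
    ∃ N, ∀ k ≥ N, ∀ n m q, (c k).sub n m q = (c N).sub n m q := by
  classical
  cases M with
  | zero =>
    have : ∀ k n m q, (c k).sub n m q = ⊤ := by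
      intro k n m q
      rw [eq_top_iff]
      intro f _
      apply mem_of_ann
      intro g hg
      have := (c k).van _ _ _ _ hg
      refine Finset.sum_eq_zero fun t _ => ?_
      rw [this t, mul_zero]
    exact ⟨0, fun k _ n m q => by rw [this, this]⟩
  | succ D =>
    -- large `q`
    obtain ⟨N1, hN1⟩ := CMod.words c hc D (p + (D + 2 * (D + 1))) (K0 D + D + 2 * (D + 1))
      (by omega)
    -- small `q`
    choose N2 hN2 using fun q : ℕ => CMod.words c hc (p + q) (p + q) q le_rfl
    let N : ℕ := max N1 ((Finset.range (K0 D + D + 2 * (D + 1))).sup N2)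
    refine ⟨N, fun k hk n m q => ?_⟩
    by_contra hne
    have hle := fun n m q => CMod.le_of_le c hc hk n m q
    have hnle : ¬ (c k).sub n m q ≤ (c N).sub n m q :=
      fun h => hne (le_antisymm h (hle n m q))
    by_cases hq : q < K0 D + D + 2 * (D + 1)
    · obtain ⟨f, hf1, hf2, hf0, hsp⟩ := CMod.special (c := c N) (c' := c k) hle n q (p + q)
        (Or.inr rfl) m hnle
      have hNq : N2 q ≤ N :=
        le_trans (Finset.le_sup (f := N2) (Finset.mem_range.2 hq)) (le_max_right _ _)
      have hfe : f = extF (p + (q + 0)) (K1 := p + q) (D := p + q) (n := n)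
          (fun w => f (ext (p + q) w)) := by
        ext t
        have ht : ext (p + q) (fun i (r : Fin (p + q)) => t r i) = t := by
          funext r i
          simp only [ext, r.2, dif_pos]
        have h1 := extF_ext (K := p + q) (K1 := p + q) (D := p + q) (n := n) le_rfl
          (fun w => f (ext (p + q) w)) (fun i (r : Fin (p + q)) => t r i)
        rw [ht] at h1
        exact h1.symm
      apply hf0
      apply eq_zero_of_mem_orth _ hf2
      rw [hfe]
      refine CMod.le_of_le c hc hNq n _ _ ?_
      apply hN2 q k (le_trans hNq hk) n 0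
      rw [← hfe]
      exact hf1
    · obtain ⟨q', rfl⟩ : ∃ q', q = (K0 D + D + 2 * (D + 1)) + q' :=
        ⟨q - (K0 D + D + 2 * (D + 1)), by omega⟩
      obtain ⟨f, hf1, hf2, hf0, hsp⟩ := CMod.special (c := c N) (c' := c k) hle n
        ((K0 D + D + 2 * (D + 1)) + q') D (Or.inl ⟨by omega, rfl⟩) m hnle
      obtain ⟨e, he⟩ := CMod.reduce (c N) n ((K0 D + D + 2 * (D + 1)) + q') (by omega) f hsp
      apply hf0
      apply eq_zero_of_mem_orth _ hf2
      have h1 : extF (p + (K0 D + D + 2 * (D + 1) + q')) e ∈
          (c k).sub n (D + 1) (K0 D + D + 2 * (D + 1) + q') := by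
        have := (Submodule.sub_mem _ hf1 (hle _ _ _ he))
        simpa using this
      have h2 := hN1 k (le_trans (le_max_left _ _) hk) n q' e h1
      have h3 := CMod.le_of_le c hc (le_max_left N1
        ((Finset.range (K0 D + D + 2 * (D + 1))).sup N2)) n _ _ h2
      have h4 := Submodule.add_mem _ he h3
      simpa using h4

end chain

end

end Pool.Agent.Helper77.DS
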