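import Pool.Agent.Helper77.DS.Defs

/-!
Delta-schemes supported on the Segre varieties (MP_b07a0a): one column.
-/

namespace Pool.Agent.Helper77.DS

noncomputable section

variable {R E Y : Type}

/-- number of occurrences of the letter `c` -/
def cnt [Fintype R] [DecidableEq E] (u : R → E) (c : E) : ℕ :=
  (Finset.univ.filter fun r => u r = c).card

/-- A matrix acts on functions of one column. -/
def cact [Fintype R] [DecidableEq R] [Fintype E] [AddCommGroup Y] [Module ℂ Y] (B : E → E → ℂ)
    (F : (R → E) → Y) : (R → E) → Y :=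
  fun u => ∑ v : R → E, (∏ r, B (u r) (v r)) • F v

/-- `k`-fold differences of functions of one column vanish. -/
def VanC [DecidableEq R] [AddCommGroup Y] : ℕ → Finset R → ((R → E) → Y) → Prop
  | 0, _, F => ∀ u, F u = 0
  | k + 1, U, F => ∀ P Q : R, P ∉ U → Q ∉ U → P ≠ Q →
      VanC k (insert P (insert Q U)) (fun u => F u - F (fun r => u (Equiv.swap P Q r)))

/-- bound for the number of rows -/
def K0 (D : ℕ) : ℕ := 2 * (D + 1) * (2 ^ (D + 2) * (D + 1) ^ 2 + 1)

open Classical in
/-- Copies of the letters of a word. -/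
def wmap {S I I' : Type} [Fintype I] [Fintype S] (s : I' → I) (c : (I → S) → ℂ) :
    (I' → S) → ℂ :=
  fun w' => ∑ w : I → S, if (fun i => w (s i)) = w' then c w else 0

end

end Pool.Agent.Helper77.DS
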