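import Pool.Agent.Helper77.DS.Defs

/-!
Delta-schemes supported on the Segre varieties (MP_b07a0a): level, support, Koszul homology.
-/

namespace Pool.Agent.Helper77.DS

open MvPolynomial

noncomputable section

/-- `I` has level at most `d`: every element of `Sym(⊗ V i)` all of whose images under linear maps
`V i → ℂ^d` lie in `I` lies in `I`. (An irreducible functor `S_λ` has at most `d` rows if and only
if its elements are detected by the linear maps to `ℂ^d`.) -/
def HasLevel (I : DI.DeltaIdeal) (d : ℕ) : Prop :=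
  ∀ (ι : Type) [Finite ι] [Nonempty ι] (V : ι → Type) [∀ i, Finite (V i)]
    (f : MvPolynomial (∀ i, V i) ℂ),
    (∀ A : ∀ i, Fin d → V i → ℂ, DI.lmap (V' := fun _ => Fin d) A f ∈ I.ideal ι (fun _ => Fin d)) →
      f ∈ I.ideal ι V

/-- The zero sets of `I` are contained in the (cones over the) Segre varieties. -/
def SegreSupport (I : DI.DeltaIdeal) : Prop :=
  ∀ (ι : Type) [Finite ι] [Nonempty ι] (V : ι → Type) [∀ i, Finite (V i)]
    (z : (∀ i, V i) → ℂ), (∀ f ∈ I.ideal ι V, eval z f = 0) →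
      ∃ a : ∀ i, V i → ℂ, ∀ α, z α = ∏ᶠ i, a i (α i)

variable {Ω : Type}

/-- Alternating functions of `p` arguments: elements of `⋀^p W ⊗ Sym(W)`. -/
def Alt {p : ℕ} (c : (Fin p → Ω) → MvPolynomial Ω ℂ) : Prop :=
  ∀ (σ : Equiv.Perm (Fin p)) (s : Fin p → Ω),
    c (fun i => s (σ i)) = ((Equiv.Perm.sign σ : ℤ) : MvPolynomial Ω ℂ) * c s

/-- The Koszul differential `⋀^(p+1) W ⊗ Sym(W) → ⋀^p W ⊗ Sym(W)`. -/
def bd {p : ℕ} (c : (Fin (p + 1) → Ω) → MvPolynomial Ω ℂ) : (Fin p → Ω) → MvPolynomial Ω ℂ :=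
  fun s => ∑ᶠ α : Ω, X α * c (Fin.cons α s)

/-- The Koszul homology of `Sym(W)/J` at `⋀^(p+1) W ⊗ (Sym(W)/J)_q`, that is
`Tor_(p+1)(Sym(W)/J, ℂ)` in degree `p + 1 + q`, vanishes. -/
def KosExact (J : Ideal (MvPolynomial Ω ℂ)) (p q : ℕ) : Prop :=
  ∀ c : (Fin (p + 1) → Ω) → MvPolynomial Ω ℂ, Alt c → (∀ s, (c s).IsHomogeneous q) →
    (∀ s, bd c s ∈ J) → ∃ b : (Fin (p + 2) → Ω) → MvPolynomial Ω ℂ, Alt b ∧
      ∀ s, c s - bd b s ∈ J

/-- Cycles modulo `J` that are alternating modulo `J`. -/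
def Cyc [Finite Ω] (J : Ideal (MvPolynomial Ω ℂ)) (p : ℕ) :
    Submodule ℂ ((Fin (p + 1) → Ω) → MvPolynomial Ω ℂ) where
  carrier := {c | (∀ (σ : Equiv.Perm (Fin (p + 1))) (s : Fin (p + 1) → Ω),
    c (fun i => s (σ i)) - ((Equiv.Perm.sign σ : ℤ) : MvPolynomial Ω ℂ) * c s ∈ J) ∧
      ∀ s, bd c s ∈ J}
  zero_mem' := by
    refine ⟨fun σ s => ?_, fun s => ?_⟩
    · simp
    · have : bd (0 : (Fin (p + 1) → Ω) → MvPolynomial Ω ℂ) s = 0 := by simp [bd]
      rw [this]
      exact J.zero_mem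
  add_mem' := by
    rintro c c' ⟨h1, h2⟩ ⟨h1', h2'⟩
    refine ⟨fun σ s => ?_, fun s => ?_⟩
    · have := J.add_mem (h1 σ s) (h1' σ s)
      convert this using 1
      simp only [Pi.add_apply]
      ring
    · have := J.add_mem (h2 s) (h2' s)
      convert this using 1
      simp only [bd, Pi.add_apply, mul_add]
      exact finsum_add_distrib (Set.toFinite _) (Set.toFinite _)
  smul_mem' := by
    rintro a c ⟨h1, h2⟩
    refine ⟨fun σ s => ?_, fun s => ?_⟩
    · have := J.mul_mem_left (C a) (h1 σ s)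
      convert this using 1
      simp only [Pi.smul_apply, MvPolynomial.smul_eq_C_mul]
      ring
    · have := J.mul_mem_left (C a) (h2 s)
      convert this using 1
      simp only [bd, Pi.smul_apply, MvPolynomial.smul_eq_C_mul]
      rw [← smul_eq_mul, smul_finsum' _ (Set.toFinite _)]
      refine finsum_congr fun α => ?_
      rw [smul_eq_mul]
      ring

end

end Pool.Agent.Helper77.DS
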