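import Pool.Agent.Helper77.DS.Asm

/-!
Delta-schemes supported on the Segre varieties (MP_b07a0a): syzygies.
-/

namespace Pool.Agent.Helper77.DS

open MvPolynomial

noncomputable section

/-! ## Homogeneity and multiplicativity of the actions -/

theorem lmap_homog {n m m' : ℕ} (A : Fin (n + 1) → Fin m' → Fin m → ℂ)
    {f : MvPolynomial (Fin (n + 1) → Fin m) ℂ} {i : ℕ} (hf : f.IsHomogeneous i) :
    (DI.lmap (V := fun _ => Fin m) (V' := fun _ => Fin m') A f).IsHomogeneous i := by
  have := hf.aeval (fun α : Fin (n + 1) → Fin m =>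
    ∑ᶠ β : (Fin (n + 1) → Fin m'), C (∏ᶠ i, A i (β i) (α i)) * X β) (n := 1) (by
      intro α
      rw [finsum_eq_sum_of_fintype]
      exact IsHomogeneous.sum _ _ _ fun β _ => isHomogeneous_C_mul_X _ _)
  rw [one_mul] at this
  exact this

/-- `pact` as a linear map -/
def pactL {p n m m' : ℕ} (A : Fin (n + 1) → Fin m' → Fin m → ℂ) :
    ((Fin p → Fin (n + 1) → Fin m) → MvPolynomial (Fin (n + 1) → Fin m) ℂ) →ₗ[ℂ]
      ((Fin p → Fin (n + 1) → Fin m') → MvPolynomial (Fin (n + 1) → Fin m') ℂ) where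
  toFun c := pact A c
  map_add' c c' := by
    ext1 s
    simp only [pact, Pi.add_apply, map_add, mul_add, Finset.sum_add_distrib]
  map_smul' a c := by
    ext1 s
    simp only [pact, Pi.smul_apply, map_smul, RingHom.id_apply, Finset.smul_sum, mul_smul_comm]

theorem pact_mul {p n m m' : ℕ} (A : Fin (n + 1) → Fin m' → Fin m → ℂ)
    (f : MvPolynomial (Fin (n + 1) → Fin m) ℂ)
    (c : (Fin p → Fin (n + 1) → Fin m) → MvPolynomial (Fin (n + 1) → Fin m) ℂ) :
    pact A (fun s => f * c s) = fun s => DI.lmap (V := fun _ => Fin m) (V' := fun _ => Fin m') A f *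
      pact A c s := by
  funext s
  simp only [pact, map_mul, Finset.mul_sum]
  refine Finset.sum_congr rfl fun t _ => ?_
  ring

theorem pact_homog {p n m m' : ℕ} (A : Fin (n + 1) → Fin m' → Fin m → ℂ)
    {c : (Fin p → Fin (n + 1) → Fin m) → MvPolynomial (Fin (n + 1) → Fin m) ℂ} {i : ℕ}
    (hc : ∀ s, (c s).IsHomogeneous i) (s : Fin p → Fin (n + 1) → Fin m') :
    (pact A c s).IsHomogeneous i :=
  IsHomogeneous.sum _ _ _ fun t _ => (lmap_homog A (hc t)).C_mul _

/-- `pcol` as a linear map -/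
def pcolL {p n n' m : ℕ} (s : Fin (n' + 1) → Fin (n + 1)) :
    ((Fin p → Fin (n + 1) → Fin m) → MvPolynomial (Fin (n + 1) → Fin m) ℂ) →ₗ[ℂ]
      ((Fin p → Fin (n' + 1) → Fin m) → MvPolynomial (Fin (n' + 1) → Fin m) ℂ) where
  toFun c := pcol s c
  map_add' c c' := by
    ext1 t
    simp only [pcol, Pi.add_apply, map_add, ← Finset.sum_add_distrib]
    refine Finset.sum_congr rfl fun t _ => ?_
    split_ifs <;> simp
  map_smul' a c := by
    ext1 t
    simp only [pcol, Pi.smul_apply, map_smul, RingHom.id_apply, Finset.smul_sum]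
    refine Finset.sum_congr rfl fun t _ => ?_
    split_ifs <;> simp

theorem pcol_mul {p n n' m : ℕ} (s : Fin (n' + 1) → Fin (n + 1))
    (f : MvPolynomial (Fin (n + 1) → Fin m) ℂ)
    (c : (Fin p → Fin (n + 1) → Fin m) → MvPolynomial (Fin (n + 1) → Fin m) ℂ) :
    pcol s (fun t => f * c t) = fun t' => rename (fun α j => α (s j)) f * pcol s c t' := by
  funext t'
  simp only [pcol, map_mul, Finset.mul_sum]
  refine Finset.sum_congr rfl fun t _ => ?_
  split_ifs <;> simp

theorem pcol_homog {p n n' m : ℕ} (s : Fin (n' + 1) → Fin (n + 1))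
    {c : (Fin p → Fin (n + 1) → Fin m) → MvPolynomial (Fin (n + 1) → Fin m) ℂ} {i : ℕ}
    (hc : ∀ s, (c s).IsHomogeneous i) (t' : Fin p → Fin (n' + 1) → Fin m) :
    (pcol s c t').IsHomogeneous i := by
  refine IsHomogeneous.sum _ _ _ fun t _ => ?_
  split_ifs
  · exact (hc t).rename_isHomogeneous
  · exact isHomogeneous_zero _ _ _

/-! ## Cycles generated in bounded degree -/

theorem cyc_mul {Ω : Type} [Finite Ω] (J : Ideal (MvPolynomial Ω ℂ)) (p : ℕ)
    (h : MvPolynomial Ω ℂ) (c : (Fin (p + 1) → Ω) → MvPolynomial Ω ℂ) (hc : c ∈ Cyc J p) :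
    (fun s => h * c s) ∈ Cyc J p := by
  have := Fintype.ofFinite Ω
  refine ⟨fun σ s => ?_, fun s => ?_⟩
  · have := J.mul_mem_left h (hc.1 σ s)
    convert this using 1
    ring
  · have := J.mul_mem_left h (hc.2 s)
    convert this using 1
    simp only [bd, finsum_eq_sum_of_fintype, Finset.mul_sum]
    refine Finset.sum_congr rfl fun α _ => ?_
    ring

/-- products of homogeneous polynomials and homogeneous cycles of degree at most `k` -/
def cgen (I : DI.DeltaIdeal) (p k n m : ℕ) :
    Set ((Fin (p + 1) → Fin (n + 1) → Fin m) → MvPolynomial (Fin (n + 1) → Fin m) ℂ) :=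
  {x | ∃ (i j : ℕ) (f : MvPolynomial (Fin (n + 1) → Fin m) ℂ)
    (c : (Fin (p + 1) → Fin (n + 1) → Fin m) → MvPolynomial (Fin (n + 1) → Fin m) ℂ),
    c ∈ Cyc (I.ideal (Fin (n + 1)) (fun _ => Fin m)) p ∧ f.IsHomogeneous i ∧
      (∀ s, (c s).IsHomogeneous j) ∧ j ≤ k ∧ x = fun s => f * c s}

/-- submodule generated by cycles of degree at most `k` -/
def csub (I : DI.DeltaIdeal) (p k n m : ℕ) : Submodule ℂ
    ((Fin (p + 1) → Fin (n + 1) → Fin m) → MvPolynomial (Fin (n + 1) → Fin m) ℂ) :=
  Submodule.span ℂ (cgen I p k n m) ⊔ vals (p + 1) (I.ideal (Fin (n + 1)) (fun _ => Fin m))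

/-- multiplication as a linear map -/
def mulL {p : ℕ} {Ω : Type} (h : MvPolynomial Ω ℂ) :
    ((Fin p → Ω) → MvPolynomial Ω ℂ) →ₗ[ℂ] ((Fin p → Ω) → MvPolynomial Ω ℂ) where
  toFun c := fun s => h * c s
  map_add' c c' := by
    ext1 s
    simp only [Pi.add_apply, mul_add]
  map_smul' a c := by
    ext1 s
    simp only [Pi.smul_apply, RingHom.id_apply, mul_smul_comm]

/-- The families of submodules generated by cycles of degree at most `k`. -/
def cmod (I : DI.DeltaIdeal) (p k M : ℕ)
    (hI : ∀ n m : ℕ, segI (Fin (n + 1)) (Fin m) ^ M ≤ I.ideal (Fin (n + 1)) (fun _ => Fin m)) :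
    PMod (p + 1) M where
  S n m := csub I p k n m
  mul := by
    intro n m c hc α
    have : csub I p k n m ≤ (csub I p k n m).comap (mulL (X α)) := by
      refine sup_le (Submodule.span_le.2 ?_) ?_
      · rintro x ⟨i, j, f, c, hc, hf, hj, hjk, rfl⟩
        refine Submodule.mem_sup_left (Submodule.subset_span ?_)
        refine ⟨1 + i, j, X α * f, c, hc, (isHomogeneous_X _ _).mul hf, hj, hjk, ?_⟩
        funext s
        simp only [mulL, LinearMap.coe_mk, AddHom.coe_mk]
        ring
      · intro x hx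
        exact Submodule.mem_sup_right fun s => Ideal.mul_mem_left _ _ (hx s)
    exact this hc
  lin := by
    intro n m m' A c hc
    have : csub I p k n m ≤ (csub I p k n m').comap (pactL A) := by
      refine sup_le (Submodule.span_le.2 ?_) ?_
      · rintro x ⟨i, j, f, c, hc, hf, hj, hjk, rfl⟩
        refine Submodule.mem_sup_left (Submodule.subset_span ?_)
        refine ⟨i, j, DI.lmap (V := fun _ => Fin m) (V' := fun _ => Fin m') A f, pact A c,
          cyc_lin I p n m m' A c hc, lmap_homog A hf, pact_homog A hj, hjk, ?_⟩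
        exact pact_mul A f c
      · intro x hx
        exact Submodule.mem_sup_right (pact_vals I (p + 1) n m m' A x hx)
    exact this hc
  col := by
    intro n n' m s hs c hc
    have : csub I p k n m ≤ (csub I p k n' m).comap (pcolL s) := by
      refine sup_le (Submodule.span_le.2 ?_) ?_
      · rintro x ⟨i, j, f, c, hc, hf, hj, hjk, rfl⟩
        refine Submodule.mem_sup_left (Submodule.subset_span ?_)
        refine ⟨i, j, rename (fun α j => α (s j)) f, pcol s c,
          cyc_col I p n n' m s hs c hc, hf.rename_isHomogeneous, pcol_homog s hj, hjk, ?_⟩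
        exact pcol_mul s f c
      · intro x hx
        exact Submodule.mem_sup_right (pcol_vals I (p + 1) n n' m s hs x hx)
    exact this hc
  base := fun n m c hc => Submodule.mem_sup_right fun s => hI n m (hc s)

/-! ## Degree components -/

/-- homogeneous components of functions -/
def compL {p : ℕ} {Ω : Type} (q : ℕ) :
    ((Fin p → Ω) → MvPolynomial Ω ℂ) →ₗ[ℂ] ((Fin p → Ω) → MvPolynomial Ω ℂ) where
  toFun c := fun s => homogeneousComponent q (c s)
  map_add' c c' := by
    ext1 s
    simp only [Pi.add_apply, map_add]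
  map_smul' a c := by
    ext1 s
    simp only [Pi.smul_apply, RingHom.id_apply, map_smul]

/-- sums of products of variables and cycles, modulo `J` -/
def xcyc {Ω : Type} [Fintype Ω] (J : Ideal (MvPolynomial Ω ℂ)) (p : ℕ) :
    Submodule ℂ ((Fin (p + 1) → Ω) → MvPolynomial Ω ℂ) where
  carrier := {x | ∃ z : Ω → (Fin (p + 1) → Ω) → MvPolynomial Ω ℂ, (∀ α, z α ∈ Cyc J p) ∧
    ∀ s, x s - ∑ α, X α * z α s ∈ J}
  zero_mem' := ⟨0, fun _ => Submodule.zero_mem _, fun s => by simp⟩
  add_mem' := by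
    rintro x y ⟨z, hz, hx⟩ ⟨w, hw, hy⟩
    refine ⟨z + w, fun α => Submodule.add_mem _ (hz α) (hw α), fun s => ?_⟩
    have := J.add_mem (hx s) (hy s)
    convert this using 1
    simp only [Pi.add_apply, mul_add, Finset.sum_add_distrib]
    ring
  smul_mem' := by
    rintro a x ⟨z, hz, hx⟩
    refine ⟨a • z, fun α => Submodule.smul_mem _ _ (hz α), fun s => ?_⟩
    have := J.mul_mem_left (C a) (hx s)
    convert this using 1
    simp only [Pi.smul_apply, MvPolynomial.smul_eq_C_mul, mul_sub, Finset.mul_sum]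
    congr 1
    refine Finset.sum_congr rfl fun α _ => ?_
    ring

theorem exists_X {Ω : Type} [Fintype Ω] {f : MvPolynomial Ω ℂ} {i : ℕ}
    (hf : f.IsHomogeneous (i + 1)) : ∃ h : Ω → MvPolynomial Ω ℂ, f = ∑ α, X α * h α := by
  have h1 : f ∈ Ideal.span (Set.range (X : Ω → MvPolynomial Ω ℂ)) := by
    have := (MvPolynomial.mem_ideal_span_X_image (x := f) (s := Set.univ)).2 (by
      intro d hd
      by_contra hcon
      push Not at hcon
      have hd0 : d = 0 := by
        ext α
        exact hcon α (Set.mem_univ _)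
      rw [hd0] at hd
      have h2 := hf (mem_support_iff.1 hd)
      simp at h2)
    rwa [Set.image_univ] at this
  obtain ⟨h, hh⟩ := (Ideal.mem_span_range_iff_exists_fun).1 h1
  refine ⟨h, ?_⟩
  rw [← hh]
  exact Finset.sum_congr rfl fun α _ => mul_comm _ _

theorem csub_comp (I : DI.DeltaIdeal) (p N n m q : ℕ) (hq : N < q) :
    csub I p N n m ≤ (xcyc (I.ideal (Fin (n + 1)) (fun _ => Fin m)) p).comap (compL q) := by
  refine sup_le (Submodule.span_le.2 ?_) ?_
  · rintro x ⟨i, j, f, c, hc, hf, hj, hjk, rfl⟩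
    have h0 : ∀ s, (f * c s).IsHomogeneous (i + j) := fun s => hf.mul (hj s)
    by_cases hij : i + j = q
    · obtain ⟨i', rfl⟩ : ∃ i', i = i' + 1 := ⟨i - 1, by omega⟩
      obtain ⟨h, hh⟩ := exists_X hf
      refine ⟨fun α => fun s => h α * c s, fun α => cyc_mul _ _ _ _ hc, fun s => ?_⟩
      have h1 : (compL q fun s => f * c s) s = f * c s := by
        change homogeneousComponent q (f * c s) = f * c s
        rw [homogeneousComponent_of_mem (h0 s), if_pos hij.symm]
      rw [h1]
      have h2 : f * c s - ∑ α, X α * (h α * c s) = 0 := by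
        rw [hh, Finset.sum_mul, ← Finset.sum_sub_distrib]
        refine Finset.sum_eq_zero fun α _ => ?_
        ring
      rw [h2]
      exact Ideal.zero_mem _
    · have h1 : (compL q fun s => f * c s) = 0 := by
        funext s
        change homogeneousComponent q (f * c s) = 0
        rw [homogeneousComponent_of_mem (h0 s), if_neg (Ne.symm hij)]
      change compL q (fun s => f * c s) ∈ xcyc (I.ideal (Fin (n + 1)) (fun _ => Fin m)) p
      rw [h1]
      exact Submodule.zero_mem _
  · intro x hx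
    refine ⟨0, fun _ => Submodule.zero_mem _, fun s => ?_⟩
    simp only [Pi.zero_apply, mul_zero, Finset.sum_const_zero, sub_zero]
    exact I.homog _ _ _ q (hx s)

theorem syz_fin (M : ℕ) (I : DI.DeltaIdeal)
    (hI : ∀ n m : ℕ, segI (Fin (n + 1)) (Fin m) ^ M ≤ I.ideal (Fin (n + 1)) (fun _ => Fin m))
    (p : ℕ) : ∃ D, ∀ (ι : Type) [Finite ι] [Nonempty ι] (V : ι → Type) [∀ i, Finite (V i)] (q : ℕ),
      D < q → KosExact (I.ideal ι V) p q := by
  obtain ⟨N, hN⟩ := PMod.acc (fun k => cmod I p k M hI) (by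
    intro k n m
    refine sup_le_sup_right (Submodule.span_mono ?_) _
    rintro x ⟨i, j, f, c, hc, hf, hj, hjk, rfl⟩
    exact ⟨i, j, f, c, hc, hf, hj, le_trans hjk (Nat.le_succ k), rfl⟩)
  refine ⟨N, fun ι _ _ V _ q hq => ?_⟩
  obtain ⟨n, m, ε, hε, hI'⟩ := transport ι V
  refine kos_transport ε hε _ _ (hI' I).1 (hI' I).2 p q ?_
  apply kos_exact_of_cyc
  intro c hc hcq
  have h1 : c ∈ csub I p q n m := by
    refine Submodule.mem_sup_left (Submodule.subset_span ?_)
    refine ⟨0, q, 1, c, hc, isHomogeneous_one _ _, hcq, le_rfl, ?_⟩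
    funext s
    rw [one_mul]
  have h2 : c ∈ csub I p N n m := hN q hq.le n m q c h1 hcq
  obtain ⟨z, hz, hzc⟩ := csub_comp I p N n m q hq h2
  refine ⟨z, hz, fun s => ?_⟩
  have h3 : (compL q c) s = c s := by
    change homogeneousComponent q (c s) = c s
    exact homogeneousComponent_eq_self (hcq s)
  have h4 := hzc s
  rw [h3] at h4
  rw [finsum_eq_sum_of_fintype]
  exact h4

/-- main theorem -/
theorem main (I : DI.DeltaIdeal) (d : ℕ) (hl : HasLevel I d) (hs : SegreSupport I) :
    (∃ S : List DI.Elt, (∀ x ∈ S, I.Mem x) ∧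
      ∀ J : DI.DeltaIdeal, (∀ x ∈ S, J.Mem x) → I.le J) ∧
    ∀ p : ℕ, ∃ D : ℕ, ∀ (ι : Type) [Finite ι] [Nonempty ι] (V : ι → Type) [∀ i, Finite (V i)]
      (q : ℕ), D < q → KosExact (I.ideal ι V) p q := by
  obtain ⟨m, hm⟩ := flat_of_level I d hl hs
  have hI : ∀ n e : ℕ,
      segI (Fin (n + 1)) (Fin e) ^ (2 * m) ≤ I.ideal (Fin (n + 1)) (fun _ => Fin e) :=
    fun n e => flat_pow m _ (hm n e)
  exact ⟨fg_of_base _ I hI, syz_fin _ I hI⟩

end

end Pool.Agent.Helper77.DS
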